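import Pool.Agent.H12RS.Vec
import Pool.Agent.H629Chowla.Suff

/-!
# Random sign changes of the Möbius function and automorphisms of C*-algebras

The signs of the Möbius function (or of `w λ`, for an arbitrary bounded weight `w`) are changed at
random at the primes, independently, possibly with small probabilities. Almost surely, for all
automorphisms `α` of exact C*-algebras with Voiculescu-Brown entropy zero, and more generally for
all linear contractions of normed spaces whose orbits are approximated by contractions through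
matrix algebras of subexponential size, the averages of `z n • αⁿ(x)` tend to zero in norm. If the
size is `exp (h n)`, the averages are at most `24 √h ‖x‖`, up to `o(1)`.
-/

set_option autoImplicit false

open Finset Filter Topology MeasureTheory ProbabilityTheory

namespace Pool.Agent.Results.MP_7a8f48_an.RandomSignChangesNorm

universe u v v'

open Classical in
/-- The completely multiplicative function with the value `1` at the primes of `Q` and the value
`-1` at all the other primes (Liouville's function if `Q` is empty). -/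
noncomputable def lam (Q : Set ℕ) (n : ℕ) : ℝ :=
  (n.primeFactorsList.map (fun p => if p ∈ Q then (1 : ℝ) else -1)).prod

/-- The primes `p` with `(log₂ N) ^ 2 < p ≤ N ^ (1 / 4)` (integer part of the logarithm). -/
def window (N : ℕ) : Finset ℕ :=
  (Icc 1 N).filter (fun p => p.Prime ∧ (Nat.log 2 N) ^ 2 < p ∧ p ^ 4 ≤ N)

/-- `Q` is a random set (only its primes matter), the events `p ∈ Q` are independent, and
`∑ min (P(p ∈ Q), P(p ∉ Q)) / p` over the window of `N` tends to infinity with `N`. -/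
structure Admissible {Ω : Type v'} [MeasurableSpace Ω] (μ : Measure Ω) (Q : Ω → Set ℕ) : Prop where
  meas : ∀ p, MeasurableSet {ω | p ∈ Q ω}
  indep : iIndepSet (fun p => {ω | p ∈ Q ω}) μ
  mass : Tendsto (fun N => ∑ p ∈ window N,
    min (μ.real {ω | p ∈ Q ω}) (1 - μ.real {ω | p ∈ Q ω}) / p) atTop atTop

/-- the sequence `w n * ∏_{a ∈ H} lam (n + a)` -/
noncomputable def seq (Q : Set ℕ) (w : ℕ → ℝ) (H : Finset ℕ) (n : ℕ) : ℝ :=
  w n * ∏ a ∈ H, lam Q (n + a)

/-- The normed space `F` is `M_k` with the operator norm, up to linear isometric isomorphism. -/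
def IsMatrixAlgebra (F : Type) [NormedAddCommGroup F] [NormedSpace ℂ F] (k : ℕ) : Prop :=
  Nonempty (F ≃ₗᵢ[ℂ] (EuclideanSpace ℂ (Fin k) →L[ℂ] EuclideanSpace ℂ (Fin k)))

/-- There are linear contractions `φ : X → F` and `ψ : F → Y`, where `F` is `M_k`, such that the mean
of `‖ψ (φ a) - π a‖` over the `a = Tʲ(x)`, `0 ≤ j < n`, is at most `δ`. (If
`rcp({x, T x, …, Tⁿ⁻¹ x}, δ) ≤ k` then this holds with completely positive maps, and with
`‖ψ (φ a) - π a‖ < δ` for all these `a`.) -/
def Approx {X : Type u} [NormedAddCommGroup X] [NormedSpace ℂ X] {Y : Type v}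
    [NormedAddCommGroup Y] [NormedSpace ℂ Y] (π : X →ₗᵢ[ℂ] Y) (T : X →L[ℂ] X) (x : X)
    (n : ℕ) (δ : ℝ) (k : ℕ) : Prop :=
  ∃ (F : Type) (_ : NormedAddCommGroup F) (_ : NormedSpace ℂ F) (φ : X →ₗ[ℂ] F) (ψ : F →ₗ[ℂ] Y),
    IsMatrixAlgebra F k ∧ (∀ a, ‖φ a‖ ≤ ‖a‖) ∧ (∀ b, ‖ψ b‖ ≤ ‖b‖) ∧
    ∑ j ∈ range n, ‖ψ (φ ((T^[j]) x)) - π ((T^[j]) x)‖ ≤ δ * n

/-- For infinitely many `n` the first `n` points of the orbit of `x` are approximated up to `δ`
through some `M_k` with `k ≤ exp (h n)`. This holds if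
`liminf (1 / n) log rcp({x, T x, …, Tⁿ⁻¹ x}, δ) < h`. -/
def EntropyAtMost {X : Type u} [NormedAddCommGroup X] [NormedSpace ℂ X] {Y : Type v}
    [NormedAddCommGroup Y] [NormedSpace ℂ Y] (π : X →ₗᵢ[ℂ] Y) (T : X →L[ℂ] X) (x : X) (h δ : ℝ) :
    Prop :=
  ∃ᶠ n : ℕ in atTop, ∃ k : ℕ, (k : ℝ) ≤ Real.exp (h * n) ∧ Approx π T x n δ k

/-- **Norm disjointness of random sign changes from systems of entropy zero.** Let `Q` be an
admissible random set and `w` a real sequence bounded by one, for example `w = 1` or `w = μ ^ 2`.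
Almost surely, for every nonempty finite set `H` of shifts (for example `H = {0}`), the sequence
`z n = w n * ∏_{a ∈ H} lam (n + a)` has the following properties for all linear contractions `T` of
a complex normed space `X`, all linear isometric embeddings `π` of `X` into a normed space and all
vectors `x`.
1. If the orbit of `x` is approximated up to `δ` through matrix algebras of size `exp (h n)`,
   `h > 0`, then the norms of the averages of `z n • Tⁿ(x)` are at most `24 √h ‖x‖ + δ`, up to `o(1)`.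
2. If this holds for all `h > 0` and `δ > 0` then the averages tend to zero in norm; in particular
   the averages of `z n * ρ (Tⁿ(x))` tend to zero for all continuous linear functionals `ρ`.
The last part of the theorem is a sufficient condition for `Q` to be admissible. -/
theorem result :
    (∀ (Ω : Type v') (_ : MeasurableSpace Ω) (μ : Measure Ω) (_ : IsProbabilityMeasure μ)
      (Q : Ω → Set ℕ), Admissible μ Q → ∀ w : ℕ → ℝ, (∀ n, |w n| ≤ 1) →
      ∀ᵐ ω ∂μ, ∀ H : Finset ℕ, H.Nonempty →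
        ∀ (X : Type u) (_ : NormedAddCommGroup X) (_ : NormedSpace ℂ X) (Y : Type v)
          (_ : NormedAddCommGroup Y) (_ : NormedSpace ℂ Y) (π : X →ₗᵢ[ℂ] Y) (T : X →L[ℂ] X),
          ‖T‖ ≤ 1 → ∀ x : X,
          (∀ h δ : ℝ, 0 < h → EntropyAtMost π T x h δ →
            ∀ c : ℝ, 24 * Real.sqrt h * ‖x‖ + δ < c →
              ∀ᶠ N : ℕ in atTop, ‖∑ n ∈ Icc 1 N, (seq (Q ω) w H n : ℂ) • (T^[n]) x‖ ≤ c * N) ∧
          ((∀ h δ : ℝ, 0 < h → 0 < δ → EntropyAtMost π T x h δ) →
            Tendsto (fun N : ℕ => (1 / (N : ℂ)) • ∑ n ∈ Icc 1 N, (seq (Q ω) w H n : ℂ) • (T^[n]) x)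
              atTop (𝓝 0) ∧
            ∀ ρ : X →L[ℂ] ℂ, Tendsto (fun N : ℕ => (1 / (N : ℂ)) *
              ∑ n ∈ Icc 1 N, (seq (Q ω) w H n : ℂ) * ρ ((T^[n]) x)) atTop (𝓝 0))) ∧
    (∀ (Ω : Type v') (_ : MeasurableSpace Ω) (μ : Measure Ω) (_ : IsProbabilityMeasure μ)
      (Q : Ω → Set ℕ), (∀ p, MeasurableSet {ω | p ∈ Q ω}) →
      iIndepSet (fun p => {ω | p ∈ Q ω}) μ →
      ∀ δ : ℕ → ℝ, Antitone δ → (∀ n, 0 ≤ δ n) →
      Tendsto (fun N : ℕ => δ N * Real.log (Real.log N)) atTop atTop →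
      (∀ p : ℕ, p.Prime → δ p ≤ μ.real {ω | p ∈ Q ω} ∧ μ.real {ω | p ∈ Q ω} ≤ 1 - δ p) →
      Admissible μ Q) := by
  refine ⟨?_, ?_⟩
  · intro Ω _ μ _ Q hQ w hw
    filter_upwards [Pool.Agent.H12RS.hyp2_ae Q hQ.meas hQ.indep hQ.mass w hw] with ω hω
    intro H hH X _ _ Y _ _ π T hT x
    have hyp : Pool.Agent.H12RS.Hyp2 (fun n => ∏ a ∈ H, lam (Q ω) (n + a)) w := hω H hH
    have hL : ∀ n, |w n * ∏ a ∈ H, lam (Q ω) (n + a)| ≤ 1 := by
      intro n
      rw [abs_mul]
      have h1 : |∏ a ∈ H, lam (Q ω) (n + a)| = 1 := by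
        rw [Finset.abs_prod]
        apply prod_eq_one
        intro a _
        rcases Pool.Agent.H629Chowla.lam_sign (Q ω) (n + a) with h | h
        · rw [show lam (Q ω) (n + a) = 1 from h]; norm_num
        · rw [show lam (Q ω) (n + a) = -1 from h]; norm_num
      rw [h1, mul_one]
      exact hw n
    have hgen : ∀ h δ : ℝ, 0 < h → EntropyAtMost π T x h δ →
            ∀ c : ℝ, 24 * Real.sqrt h * ‖x‖ + δ < c →
              ∀ᶠ N : ℕ in atTop, ‖∑ n ∈ Icc 1 N, (seq (Q ω) w H n : ℂ) • (T^[n]) x‖ ≤ c * N := by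
      intro h δ hh hent c hc
      exact Pool.Agent.H12RS.vec_bound _ w hL hyp π T hT x hh hent hc
    refine ⟨hgen, ?_⟩
    intro hzero
    have h1 : Tendsto (fun N : ℕ => (1 / (N : ℂ)) •
        ∑ n ∈ Icc 1 N, (seq (Q ω) w H n : ℂ) • (T^[n]) x) atTop (𝓝 0) := by
      rw [Metric.tendsto_atTop]
      intro ε hε
      obtain ⟨h, hh0, hh⟩ : ∃ h : ℝ, 0 < h ∧ 24 * Real.sqrt h * ‖x‖ ≤ ε / 4 := by
        refine ⟨(ε / (96 * (‖x‖ + 1))) ^ 2, by positivity, ?_⟩
        rw [Real.sqrt_sq (by positivity)]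
        have h2 : 24 * (ε / (96 * (‖x‖ + 1))) * ‖x‖ = (ε / 4) * (‖x‖ / (‖x‖ + 1)) := by
          field_simp
          ring
        rw [h2]
        have h3 : ‖x‖ / (‖x‖ + 1) ≤ 1 := by
          rw [div_le_one (by positivity)]; linarith
        exact mul_le_of_le_one_right (by positivity) h3
      have h2 := hgen h (ε / 4) hh0 (hzero h (ε / 4) hh0 (by positivity)) (3 * ε / 4)
        (by linarith)
      obtain ⟨N₀, hN₀⟩ := (h2.and (eventually_ge_atTop 1)).exists_forall_of_atTop
      refine ⟨N₀, fun N hN => ?_⟩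
      obtain ⟨h3, h4⟩ := hN₀ N hN
      have hN0 : (0 : ℝ) < N := by exact_mod_cast h4
      rw [dist_zero_right, norm_smul, norm_div, norm_one, Complex.norm_natCast, one_div,
        inv_mul_lt_iff₀ hN0]
      nlinarith
    refine ⟨h1, ?_⟩
    intro ρ
    have h2 := (ρ.continuous.tendsto 0).comp h1
    rw [map_zero] at h2
    refine h2.congr (fun N => ?_)
    simp only [Function.comp, map_smul, map_sum, smul_eq_mul]
  · intro Ω _ μ _ Q hm hi δ hδ h0 hlim he
    refine ⟨hm, hi, ?_⟩
    exact Pool.Agent.H629Chowla.window_tendsto δ hδ h0 hlim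
      (fun p => min (μ.real {ω | p ∈ Q ω}) (1 - μ.real {ω | p ∈ Q ω}))
      (fun p hp => le_min (he p hp).1 (by linarith [(he p hp).2]))

end Pool.Agent.Results.MP_7a8f48_an.RandomSignChangesNorm
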